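import Pool.Agent.Lib.MP_5854e1_co.K1222Main

/-!
# Negami: `K_{1,2,2,2}` has no finite planar cover

A connected graph with a finite planar cover has none of the thirty-five minor-minimal nonprojective
graphs as a minor.
-/

set_option autoImplicit false

open Pool.Agent.Lib.MP_5854e1_co

namespace Pool.Agent.Results.MP_5854e1_co.NegamiConjecture

/-- **A connected graph with a finite planar cover has none of the 35 graphs in the list `excluded`
as a minor.** The first graph of the list is `K_{1,2,2,2}`. -/
theorem result {U : Type} [Finite U] (G : SimpleGraph U) (hG : G.Connected)
    (hc : HasPlanarCover G) : ∀ p ∈ excluded, ¬ IsMinor p.2 G :=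
  noMinor_excluded K1222_noPlanarCover hG hc

end Pool.Agent.Results.MP_5854e1_co.NegamiConjecture
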